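import Pool.Agent.AEC.Defs
import Pool.Agent.AEC.Bounds

/-!
# The asymptotic expansion conjecture for framed links is false

Counterexample: `K = SU(2)`, `X` the 3-sphere, `L` the zero-framed doubled Hopf link (the Hopf link
with each component replaced by two parallel copies, the closure of the pure 4-braid
`(σ_2 σ_1 σ_3 σ_2) ^ 2`), `k₀ = 2` and all four labels the fundamental weight.  At level `k = 2 s`
with labels `s` the invariant equals
`√(2 / (2 s + 2)) * ∑_(m ≤ s) 1 / sin (π (2 m + 1) / (2 s + 2))`,
which lies between `√(s + 1) log (s + 2) / π` and `2 √(s + 1) (1 + log (s + 1))`.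
No finite sum of terms `exp (2 π i K q) K ^ d (b_0 + b_1 K ^ (-1/2) + ...)` grows like this.
-/

set_option autoImplicit false

open Pool.Agent.AEC

/-- For `SU(2)`, the 3-sphere, the zero-framed doubled Hopf link, `k₀ = 2` and all labels equal to
the fundamental weight `1`, the invariants at level `k = s k₀` with labels `s · 1` have no
asymptotic expansion of the conjectured shape. -/
theorem Pool.Agent.Results.MP_af5d62_gt.LogTerm.result :
    ¬ HasExpansion 2 (fun s => wrtSphere (s * 2) (s * 1) doubledHopf) := by
  apply no_expansion
  intro s
  rw [mul_one, mul_comm s 2]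
  exact wrt_eq_Zr s
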